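import Mathlib
import Pool.Agent.H21.UC.Main

set_option autoImplicit false

/-!
# `c(F) ≤ 1` for every three-colourable graph `F`

Molloy's theorem `c(K₃) ≤ 1` holds for every graph `F` of chromatic number at most three: every
`F`-free graph of maximum degree `Δ` has chromatic number at most `(1 + o(1)) Δ / log Δ`.  More
generally this holds for all graphs in which every `K(t, t)` has at most `s` common neighbours.

Idea.  Random independent sets are built in small steps by a process with weights (a martingale
for every vertex); with the potential `x_v (φ* - φ_v)₊ (2d - e_v)` the expected total weight of a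
vertex, and so the probability to be picked, is at least `(1 - ε) log d / d`.  Vertices with too many
(weighted) `K(t, t)` in their neighbourhoods go to other levels; the levels are a fixed point
(Brouwer) of a system with lag `K`, and in the `j`-th round only the levels congruent to `j` modulo
`K` are used, so that only every `K`-th round of a vertex is lost and a single palette is enough.
Sharp concentration and the local lemma give a phase which multiplies all degrees by `1 - δ` with
`(1 + ε) δ Δ / log Δ` colours.
-/

namespace Pool.Agent.Results.MP_349e33_co.SharpThreeColourable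

open scoped ENNReal

/-- `c(F, Δ)`: the supremum of `χ(G) / (Δ / log Δ)` over all finite `F`-free graphs `G` of maximum
degree `Δ` (it is `0` if there are none). -/
noncomputable def cAt {W : Type} (F : SimpleGraph W) (Δ : ℕ) : ℝ≥0∞ :=
  open Classical in
  ⨆ (V : Type) (_ : Fintype V) (G : SimpleGraph V) (_ : F.Free G) (_ : G.maxDegree = Δ),
    ENNReal.ofReal ((G.chromaticNumber.toNat : ℝ) / ((Δ : ℝ) / Real.log (Δ : ℝ)))

/-- `c(F) = limsup c(F, Δ) ∈ [0, ∞]` as `Δ → ∞`. -/
noncomputable def c {W : Type} (F : SimpleGraph W) : ℝ≥0∞ :=
  Filter.limsup (cAt F) Filter.atTop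

/-- `c(F) ≤ 1` for every finite graph `F` with a proper `3`-colouring; and the local version: for all
`t ≥ 1`, `s`, `ε > 0` and all large `Δ`, every finite graph `G` of maximum degree at most `Δ`, in which
any two injective `t`-tuples that are completely joined have at most `s` common neighbours, has
chromatic number at most `(1 + ε) Δ / log Δ`. -/
theorem result :
    (∀ (W : Type) [Fintype W] (F : SimpleGraph W), F.Colorable 3 → c F ≤ 1) ∧
    ∀ (t s : ℕ), 1 ≤ t → ∀ ε : ℝ, 0 < ε →
      ∃ Δ₀ : ℕ, ∀ Δ : ℕ, Δ₀ ≤ Δ → ∀ (V : Type) [Fintype V] (G : SimpleGraph V)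
        [DecidableRel G.Adj],
        (∀ x y : Fin t → V, Function.Injective x → Function.Injective y →
          (∀ i j, G.Adj (x i) (y j)) →
          Nat.card {v : V // (∀ i, G.Adj v (x i)) ∧ ∀ i, G.Adj v (y i)} ≤ s) →
        G.maxDegree ≤ Δ →
        ∃ n : ℕ, G.Colorable n ∧ (n : ℝ) ≤ (1 + ε) * ((Δ : ℝ) / Real.log (Δ : ℝ)) :=
  ⟨fun _ _ F hF => Pool.Agent.H41.UC.c_one Pool.Agent.H21.UC.t_ALL F hF,
    fun t s ht ε hε => Pool.Agent.H21.UC.locally_sparse t s ht ε hε⟩

end Pool.Agent.Results.MP_349e33_co.SharpThreeColourable
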